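import Pool.Agent.P.MP_2e1554_gt.LocF

open MeasureTheory

theorem Pool.Agent.Results.MP_2e1554_gt.LocalMaxVol.result (n : ℕ) (hn : 1 ≤ n) :
    ∃ η : ℝ, 0 < η ∧ ∀ K : Set (Fin n → ℝ), Convex ℝ K → IsCompact K → (interior K).Nonempty →
      volume K = 1 → (∀ i, ∫ x in K, x i = 0) →
      (∃ v : Fin (n + 1) → Fin n → ℝ, AffineIndependent ℝ v ∧ K ⊆ convexHull ℝ (Set.range v) ∧
        volume (convexHull ℝ (Set.range v)) ≤ ENNReal.ofReal (1 + η)) →
      (Matrix.of fun i j : Fin n => ∫ x in K, x i * x j).det ≤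
          (n.factorial : ℝ) ^ 2 / ((n + 1) ^ (n + 1) * (n + 2) ^ n) ∧
        ((Matrix.of fun i j : Fin n => ∫ x in K, x i * x j).det =
          (n.factorial : ℝ) ^ 2 / ((n + 1) ^ (n + 1) * (n + 2) ^ n) ↔
          ∃ w : Fin (n + 1) → Fin n → ℝ, AffineIndependent ℝ w ∧
            K = convexHull ℝ (Set.range w)) ∧
        ∃ w : Fin (n + 1) → Fin n → ℝ, AffineIndependent ℝ w ∧
          K ⊆ convexHull ℝ (Set.range w) ∧
          (Matrix.of fun i j : Fin n => ∫ x in K, x i * x j).det ≤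
            (n.factorial : ℝ) ^ 2 / ((n + 1) ^ (n + 1) * (n + 2) ^ n) *
              Real.exp (-(((volume (convexHull ℝ (Set.range w))).toReal - 1) / 4 ^ (n + 1))) := by
  obtain ⟨η, hη, h⟩ := Pool.Agent.P.MP_2e1554_gt.loc_main n hn
  refine ⟨η, hη, fun K hc hK hi h1 hz ⟨v, hv, hs, hvol⟩ => ?_⟩
  obtain ⟨δ, -, h⟩ := h v hv
  exact h K hc hK hi h1 hz (Or.inl ⟨hs, hvol⟩)

/-- Side theorem: the bound and its equality case on a Hausdorff neighbourhood of a simplex. -/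
theorem Pool.Agent.Results.MP_2e1554_gt.LocalMaxVol.near (n : ℕ) (hn : 1 ≤ n)
    (v : Fin (n + 1) → Fin n → ℝ) (hv : AffineIndependent ℝ v)
    (hvol : volume (convexHull ℝ (Set.range v)) = 1) :
    ∃ δ : ℝ, 0 < δ ∧ ∀ K : Set (Fin n → ℝ), Convex ℝ K → IsCompact K → (interior K).Nonempty →
      volume K = 1 → (∀ i, ∫ x in K, x i = 0) →
      Metric.hausdorffDist K (convexHull ℝ (Set.range v)) < δ →
      (Matrix.of fun i j : Fin n => ∫ x in K, x i * x j).det ≤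
          (n.factorial : ℝ) ^ 2 / ((n + 1) ^ (n + 1) * (n + 2) ^ n) ∧
        ((Matrix.of fun i j : Fin n => ∫ x in K, x i * x j).det =
          (n.factorial : ℝ) ^ 2 / ((n + 1) ^ (n + 1) * (n + 2) ^ n) ↔
          ∃ w : Fin (n + 1) → Fin n → ℝ, AffineIndependent ℝ w ∧
            K = convexHull ℝ (Set.range w)) := by
  obtain ⟨η, -, h⟩ := Pool.Agent.P.MP_2e1554_gt.loc_main n hn
  obtain ⟨δ, hδ, h⟩ := h v hv
  exact ⟨δ, hδ, fun K hc hK hi h1 hz hd =>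
    ⟨(h K hc hK hi h1 hz (Or.inr ⟨hvol, hd⟩)).1, (h K hc hK hi h1 hz (Or.inr ⟨hvol, hd⟩)).2.1⟩⟩
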