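import Pool.Agent.P.MP_2e1554_gt.IsoEnd
import Pool.Agent.P.MP_2e1554_gt.IsoTet
import Pool.Agent.P.MP_2e1554_gt.ZcL

open MeasureTheory

theorem Pool.Agent.Results.MP_2e1554_gt.Simplex.result :
    IsGreatest {d : ℝ | ∃ K : Set (Fin 3 → ℝ), Convex ℝ K ∧ IsCompact K ∧ (interior K).Nonempty ∧
        volume K = 1 ∧ (∀ i, ∫ x in K, x i = 0) ∧
        d = (Matrix.of fun i j : Fin 3 => ∫ x in K, x i * x j).det} (9 / 8000) ∧
      ∀ K : Set (Fin 3 → ℝ), Convex ℝ K → IsCompact K → (interior K).Nonempty → volume K = 1 →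
        (∀ i, ∫ x in K, x i = 0) →
        ((Matrix.of fun i j : Fin 3 => ∫ x in K, x i * x j).det = 9 / 8000 ↔
          ∃ w : Fin 4 → Fin 3 → ℝ, AffineIndependent ℝ w ∧ K = convexHull ℝ (Set.range w)) :=
  Pool.Agent.P.MP_2e1554_gt.sup_form
    (Pool.Agent.P.MP_2e1554_gt.Chk.final_of_top Pool.Agent.P.MP_2e1554_gt.Chk.Zctop)
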